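import Pool.Agent.Work.MP_916cc8_co.Grid

/-!
# Unit area triangles in cartesian products: `O(n² log n)`
-/

set_option autoImplicit false

namespace Pool.Agent.Results.MP_916cc8_co.CartesianProduct

open Finset Pool.Agent.Work.MP_916cc8_co.Grid

/-- the area of the triangle `p q r` -/
noncomputable def area (p q r : ℝ × ℝ) : ℝ :=
  |(q.1 - p.1) * (r.2 - p.2) - (q.2 - p.2) * (r.1 - p.1)| / 2

open scoped Classical in
/-- the number of unit area triangles (3-element subsets) of `P` -/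
noncomputable def unitTriangles (P : Finset (ℝ × ℝ)) : ℕ :=
  ((P.powersetCard 3).filter
    (fun t => ∃ p q r : ℝ × ℝ, t = {p, q, r} ∧ area p q r = 1)).card

/-- Let `P` be contained in an affine image `{w + a e + b f : a ∈ A, b ∈ B}` of the cartesian
product of two finite sets `A`, `B` of reals. Then `P` spans at most
`85 (|A| |B|)² (1 + log min(|A|, |B|))` unit area triangles. -/
theorem result (A B : Finset ℝ) (w e f : ℝ × ℝ) (P : Finset (ℝ × ℝ))
    (hP : ∀ x ∈ P, ∃ a ∈ A, ∃ b ∈ B, x = w + a • e + b • f) :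
    (unitTriangles P : ℝ) ≤
      85 * ((A.card : ℝ) * B.card) ^ 2 * (1 + Real.log (min A.card B.card : ℕ)) := by
  classical
  obtain ⟨D, hD⟩ : ∃ D : ℝ, D = e.1 * f.2 - e.2 * f.1 := ⟨_, rfl⟩
  have hdt : ∀ p q r : ℝ × ℝ, dt (w + p.1 • e + p.2 • f) (w + q.1 • e + q.2 • f)
      (w + r.1 • e + r.2 • f) = D * dt p q r := by
    intro p q r
    simp only [dt, hD, Prod.fst_add, Prod.snd_add, Prod.smul_fst, Prod.smul_snd, smul_eq_mul]
    ring
  have hpos : 0 ≤ 85 * ((A.card : ℝ) * B.card) ^ 2 *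
      (1 + Real.log (min A.card B.card : ℕ)) := by
    have := Real.log_natCast_nonneg (min A.card B.card)
    positivity
  -- every triangle has an ordering with positive orientation
  have hor : ∀ t ∈ (P.powersetCard 3).filter
      (fun t => ∃ p q r : ℝ × ℝ, t = {p, q, r} ∧ area p q r = 1),
      ∃ u ∈ A ×ˢ B, ∃ v ∈ A ×ˢ B, ∃ x ∈ A ×ˢ B, D * dt u v x = 2 ∧
        t = {w + u.1 • e + u.2 • f, w + v.1 • e + v.2 • f, w + x.1 • e + x.2 • f} := by
    intro t ht
    rw [mem_filter, mem_powersetCard] at ht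
    obtain ⟨⟨htP, _⟩, p, q, r, rfl, har⟩ := ht
    have hin : ∀ y ∈ ({p, q, r} : Finset (ℝ × ℝ)), ∃ u ∈ A ×ˢ B, y = w + u.1 • e + u.2 • f := by
      intro y hy
      obtain ⟨a, ha, b, hb, h⟩ := hP y (htP hy)
      exact ⟨(a, b), mem_product.2 ⟨ha, hb⟩, h⟩
    obtain ⟨u, hu, hpu⟩ := hin p (by simp)
    obtain ⟨v, hv, hqv⟩ := hin q (by simp)
    obtain ⟨x, hx, hrx⟩ := hin r (by simp)
    have har2 : |dt p q r| = 2 := by
      unfold area at har
      unfold dt
      linarith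
    rcases eq_or_eq_neg_of_abs_eq har2 with h | h
    · refine ⟨u, hu, v, hv, x, hx, ?_, by rw [hpu, hqv, hrx]⟩
      rw [← hdt, ← hpu, ← hqv, ← hrx, h]
    · refine ⟨v, hv, u, hu, x, hx, ?_, ?_⟩
      · rw [← hdt, ← hpu, ← hqv, ← hrx]
        unfold dt at h ⊢
        linarith
      · rw [hpu, hqv, hrx, insert_comm]
  by_cases hD0 : D = 0
  · -- degenerate affine image
    have h0 : unitTriangles P = 0 := by
      unfold unitTriangles
      rw [card_eq_zero]
      refine eq_empty_of_forall_notMem fun t ht => ?_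
      obtain ⟨u, _, v, _, x, _, h, _⟩ := hor t ht
      rw [hD0, zero_mul] at h
      norm_num at h
    rw [h0, Nat.cast_zero]
    exact hpos
  · refine le_trans ?_ (grid_bound A B (c := 2 / D) (div_ne_zero two_ne_zero hD0))
    unfold unitTriangles
    refine Nat.cast_le.2 (card_le_card_of_surjOn (fun z : (ℝ × ℝ) × ((ℝ × ℝ) × (ℝ × ℝ)) =>
      ({w + z.1.1 • e + z.1.2 • f, w + z.2.1.1 • e + z.2.1.2 • f,
        w + z.2.2.1 • e + z.2.2.2 • f} : Finset (ℝ × ℝ))) ?_)
    intro t ht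
    obtain ⟨u, hu, v, hv, x, hx, h, htt⟩ := hor t (mem_coe.1 ht)
    refine ⟨(u, (v, x)), ?_, htt.symm⟩
    rw [mem_coe, mem_filter]
    refine ⟨mem_product.2 ⟨hu, mem_product.2 ⟨hv, hx⟩⟩, ?_⟩
    show dt u v x = 2 / D
    rw [eq_div_iff hD0, mul_comm]
    exact h

end Pool.Agent.Results.MP_916cc8_co.CartesianProduct
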