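import Pool.Agent.Work.MP_916cc8_co.FL.GMain

/-!
# Unit area triangles of `n` points on `h` lines: `O(n² h^{1/3} log² h)`
-/

set_option autoImplicit false

namespace Pool.Agent.Results.MP_916cc8_co.FewLines

/-- the area of the triangle `p q r` -/
noncomputable def area (p q r : ℝ × ℝ) : ℝ :=
  |(q.1 - p.1) * (r.2 - p.2) - (q.2 - p.2) * (r.1 - p.1)| / 2

open scoped Classical in
/-- the number of unit area triangles (3-element subsets) of `P` -/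
noncomputable def unitTriangles (P : Finset (ℝ × ℝ)) : ℕ :=
  ((P.powersetCard 3).filter
    (fun t => ∃ p q r : ℝ × ℝ, t = {p, q, r} ∧ area p q r = 1)).card

/-- `ℓ` is a line of the plane -/
def IsLine (ℓ : Set (ℝ × ℝ)) : Prop :=
  ∃ a b c : ℝ, (a ≠ 0 ∨ b ≠ 0) ∧ ℓ = {x | a * x.1 + b * x.2 = c}

/-- There is a constant `C` such that every finite plane set `P` which is covered by a finite set
`L` of lines spans at most `C |P|² |L|^{1/3} (1 + log |L|)²` unit area triangles. -/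
theorem result : ∃ C : ℝ, ∀ (P : Finset (ℝ × ℝ)) (L : Finset (Set (ℝ × ℝ))),
    (∀ ℓ ∈ L, IsLine ℓ) → (∀ p ∈ P, ∃ ℓ ∈ L, p ∈ ℓ) →
    (unitTriangles P : ℝ) ≤
      C * (P.card : ℝ) ^ 2 * (L.card : ℝ) ^ ((1 : ℝ) / 3) * (1 + Real.log (L.card : ℝ)) ^ 2 := by
  obtain ⟨C, hC⟩ := Pool.Agent.Work.MP_916cc8_co.FL.Gen.few_lines_gen
  refine ⟨max C 0, fun P L hL hP => ?_⟩
  have h1 : (unitTriangles P : ℝ) ≤ C * ((P.card : ℝ) ^ 2 * min ((P.card : ℝ) ^ ((1 : ℝ) / 6))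
      ((L.card : ℝ) ^ ((1 : ℝ) / 3) * (1 + Real.log (L.card : ℝ)) ^ 2)) := hC P L hL hP
  have h2 : 0 ≤ (P.card : ℝ) ^ 2 * min ((P.card : ℝ) ^ ((1 : ℝ) / 6))
      ((L.card : ℝ) ^ ((1 : ℝ) / 3) * (1 + Real.log (L.card : ℝ)) ^ 2) :=
    mul_nonneg (by positivity) (le_min (by positivity) (by positivity))
  have h3 : (P.card : ℝ) ^ 2 * min ((P.card : ℝ) ^ ((1 : ℝ) / 6))
      ((L.card : ℝ) ^ ((1 : ℝ) / 3) * (1 + Real.log (L.card : ℝ)) ^ 2) ≤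
      (P.card : ℝ) ^ 2 * ((L.card : ℝ) ^ ((1 : ℝ) / 3) * (1 + Real.log (L.card : ℝ)) ^ 2) :=
    mul_le_mul_of_nonneg_left (min_le_right _ _) (by positivity)
  calc (unitTriangles P : ℝ) ≤ _ := h1
    _ ≤ max C 0 * ((P.card : ℝ) ^ 2 * min ((P.card : ℝ) ^ ((1 : ℝ) / 6))
        ((L.card : ℝ) ^ ((1 : ℝ) / 3) * (1 + Real.log (L.card : ℝ)) ^ 2)) :=
      mul_le_mul_of_nonneg_right (le_max_left _ _) h2
    _ ≤ max C 0 * ((P.card : ℝ) ^ 2 * ((L.card : ℝ) ^ ((1 : ℝ) / 3) *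
        (1 + Real.log (L.card : ℝ)) ^ 2)) :=
      mul_le_mul_of_nonneg_left h3 (le_max_right _ _)
    _ = _ := by ring

end Pool.Agent.Results.MP_916cc8_co.FewLines
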