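import Pool.Agent.Work.MP_916cc8_co.HO.Assemble

/-!
# Unit area triangles in homogeneous sets
-/

set_option autoImplicit false

namespace Pool.Agent.Results.MP_916cc8_co.HomogeneousSets

/-- the area of the triangle `p q r` -/
noncomputable def area (p q r : ℝ × ℝ) : ℝ :=
  |(q.1 - p.1) * (r.2 - p.2) - (q.2 - p.2) * (r.1 - p.1)| / 2

open scoped Classical in
/-- the number of unit area triangles (3-element subsets) of `P` -/
noncomputable def unitTriangles (P : Finset (ℝ × ℝ)) : ℕ :=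
  ((P.powersetCard 3).filter
    (fun t => ∃ p q r : ℝ × ℝ, t = {p, q, r} ∧ area p q r = 1)).card

open scoped Classical in
/-- the number of points of `P` in the cell `(i, j)` of the square grid of side `δ` whose cell
`(0, 0)` has lower left corner `c` -/
noncomputable def cellCount (P : Finset (ℝ × ℝ)) (c : ℝ × ℝ) (δ : ℝ) (i j : ℤ) : ℕ :=
  (P.filter fun p => (c.1 + i * δ ≤ p.1 ∧ p.1 < c.1 + (i + 1) * δ) ∧
    c.2 + j * δ ≤ p.2 ∧ p.2 < c.2 + (j + 1) * δ).card

/-- Let a square of side `N δ` be divided into `N²` square cells of side `δ`, and let `P` be a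
finite subset with at most `K` points in each cell. Then `P` spans at most
`C K⁴ N⁴ (1 + log N)² (1 + δ^(-1/3))` unit area triangles, with an absolute constant `C`. -/
theorem result : ∃ C : ℝ, 0 < C ∧ ∀ (N K : ℕ) (δ : ℝ) (c : ℝ × ℝ) (P : Finset (ℝ × ℝ)),
    1 ≤ N → 0 < δ →
    (∀ p ∈ P, (c.1 ≤ p.1 ∧ p.1 < c.1 + N * δ) ∧ c.2 ≤ p.2 ∧ p.2 < c.2 + N * δ) →
    (∀ i j : ℤ, cellCount P c δ i j ≤ K) →
    (unitTriangles P : ℝ) ≤
      C * (K : ℝ) ^ 4 * (N : ℝ) ^ 4 * (1 + Real.log N) ^ 2 * (1 + δ ^ (-(1 : ℝ) / 3)) := by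
  classical
  obtain ⟨C, hC, H⟩ := Pool.Agent.Work.MP_916cc8_co.HO.scale
    Pool.Agent.Work.MP_916cc8_co.HO.I_all'
  refine ⟨C, hC, fun N K δ c P hN hδ hP hcell => ?_⟩
  have h1 := H N K δ c P hN hδ hP (fun i j => hcell i j)
  refine le_trans ?_ h1
  have h2 : unitTriangles P ≤
      (((P ×ˢ P ×ˢ P).filter fun t =>
        |Pool.Agent.Work.MP_916cc8_co.HO.ar t.1 t.2.1 t.2.2| = 2).image
          fun t => ({t.1, t.2.1, t.2.2} : Finset (ℝ × ℝ))).card := by
    refine Finset.card_le_card fun t ht => ?_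
    rw [Finset.mem_filter, Finset.mem_powersetCard] at ht
    obtain ⟨⟨h3, _⟩, p, q, r, rfl, h4⟩ := ht
    refine Finset.mem_image.2 ⟨(p, q, r), Finset.mem_filter.2 ⟨?_, ?_⟩, rfl⟩
    · exact Finset.mem_product.2 ⟨h3 (by simp), Finset.mem_product.2
        ⟨h3 (by simp), h3 (by simp)⟩⟩
    · unfold area at h4
      simp only [Pool.Agent.Work.MP_916cc8_co.HO.ar]
      linarith
  exact_mod_cast h2.trans Finset.card_image_le

end Pool.Agent.Results.MP_916cc8_co.HomogeneousSets
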