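import Pool.Agent.Work.MP_916cc8_co.Final13
import Pool.Agent.Work.MP_916cc8_co.Fin

/-!
# Unit area triangles: U(n) = O(n^{13/6})
-/

set_option autoImplicit false

namespace Pool.Agent.Results.MP_916cc8_co.UpperBound

open Pool.Agent.Work.MP_916cc8_co Filter Asymptotics

/-- the area of the triangle `p q r` -/
noncomputable def area (p q r : ℝ × ℝ) : ℝ :=
  |(q.1 - p.1) * (r.2 - p.2) - (q.2 - p.2) * (r.1 - p.1)| / 2

open scoped Classical in
/-- the number of unit area triangles (3-element subsets) of `P` -/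
noncomputable def unitTriangles (P : Finset (ℝ × ℝ)) : ℕ :=
  ((P.powersetCard 3).filter
    (fun t => ∃ p q r : ℝ × ℝ, t = {p, q, r} ∧ area p q r = 1)).card

/-- the maximal number of unit area triangles of an `n`-point set -/
noncomputable def U (n : ℕ) : ℕ :=
  sSup {m | ∃ P : Finset (ℝ × ℝ), P.card = n ∧ unitTriangles P = m}

theorem unitTriangles_eq (P : Finset (ℝ × ℝ)) : unitTriangles P = uTri P := rfl

theorem U_mem (n : ℕ) : ∃ P : Finset (ℝ × ℝ), P.card = n ∧ unitTriangles P = U n := by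
  have h1 : {m | ∃ P : Finset (ℝ × ℝ), P.card = n ∧ unitTriangles P = m}.Nonempty := by
    obtain ⟨P, hP⟩ := Infinite.exists_subset_card_eq (ℝ × ℝ) n
    exact ⟨_, P, hP, rfl⟩
  have h2 : BddAbove {m | ∃ P : Finset (ℝ × ℝ), P.card = n ∧ unitTriangles P = m} := by
    refine ⟨n ^ 3, ?_⟩
    rintro m ⟨P, hP, rfl⟩
    rw [unitTriangles_eq, ← hP]
    exact uTri_le P
  exact Nat.sSup_mem h1 h2

/-- The number of unit area triangles spanned by `n` points in the plane is `O(n^{13/6})`. -/
theorem result : (fun n : ℕ => (U n : ℝ)) =O[atTop] fun n : ℕ => (n : ℝ) ^ ((13 : ℝ) / 6) := by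
  obtain ⟨C, hC⟩ := main13_all
  refine IsBigO.of_bound C (Eventually.of_forall fun n => ?_)
  obtain ⟨P, hP, hU⟩ := U_mem n
  have h1 := hC P
  rw [← unitTriangles_eq, hU, hP] at h1
  rw [Real.norm_of_nonneg (Nat.cast_nonneg _), Real.norm_of_nonneg (by positivity)]
  exact h1

end Pool.Agent.Results.MP_916cc8_co.UpperBound
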